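import Pool.Agent.N299.PX.Stm

/-!
Project PX, task RW: weak pure infiniteness of an ideal in terms of rows.
-/

set_option autoImplicit false

open scoped Topology
open Filter

noncomputable section

namespace Pool.Agent.N558.PX

open Pool.Agent.N299 Pool.Agent.N299.ND Pool.Agent.N299.PX Pool.Agent.N299.PX.Pub

/-- the square root of a positive element of a closed ideal lies in the ideal -/
lemma sqrt_mem {B : Type} [CStarAlgebra B] {I : Submodule ℂ B} (hI : Idl I) {b : B} (hb : b ∈ I)
    (hp : Pos b) : ∃ d ∈ I, star d * d = b := by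
  let _ : PartialOrder B := CStarAlgebra.spectralOrder B
  let _ : StarOrderedRing B := CStarAlgebra.spectralOrderedRing B
  have h0 : 0 ≤ b := (pos_iff b).1 hp
  have hsa : IsSelfAdjoint b := hp.sa
  refine ⟨cfc (fun t : ℝ => Real.sqrt (max t 0)) b, ?_, ?_⟩
  · have h1 : cfc (fun t : ℝ => Real.sqrt (max t 0)) b ∈ closure (I : Set B) := by
      rw [Metric.mem_closure_iff]
      intro ε hε
      have hδ : 0 < ε ^ 2 := by positivity
      have hcont : Continuous (fun t : ℝ => Real.sqrt (max t 0) / (max t 0 + ε ^ 2)) := by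
        refine Continuous.div (by fun_prop) (by fun_prop) fun t => ?_
        have : 0 ≤ max t 0 := le_max_right _ _
        positivity
      refine ⟨b * cfc (fun t : ℝ => Real.sqrt (max t 0) / (max t 0 + ε ^ 2)) b,
        hI.mulR b hb _, ?_⟩
      have e1 : b * cfc (fun t : ℝ => Real.sqrt (max t 0) / (max t 0 + ε ^ 2)) b
          = cfc (fun t : ℝ => t * (Real.sqrt (max t 0) / (max t 0 + ε ^ 2))) b := by
        rw [cfc_mul (R := ℝ) (fun t => t) _ b (by fun_prop) hcont.continuousOn, cfc_id' ℝ b]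
      have hcont2 : Continuous (fun t : ℝ => t * (Real.sqrt (max t 0) / (max t 0 + ε ^ 2))) :=
        continuous_id.mul hcont
      rw [dist_eq_norm, e1, ← cfc_sub (R := ℝ) (fun t => Real.sqrt (max t 0))
        (fun t => t * (Real.sqrt (max t 0) / (max t 0 + ε ^ 2))) b
        (by fun_prop) hcont2.continuousOn]
      refine lt_of_le_of_lt (norm_cfc_le (c := ε / 2) (by positivity) fun t ht => ?_)
        (half_lt_self hε)
      have ht0 : 0 ≤ t := spectrum_nonneg_of_nonneg h0 ht
      rw [max_eq_left ht0]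
      set s := Real.sqrt t with hs
      have hs0 : 0 ≤ s := Real.sqrt_nonneg t
      have hst : t = s ^ 2 := (Real.sq_sqrt ht0).symm
      have hpos : 0 < s ^ 2 + ε ^ 2 := by positivity
      rw [hst]
      have e2 : s - s ^ 2 * (s / (s ^ 2 + ε ^ 2)) = s * ε ^ 2 / (s ^ 2 + ε ^ 2) := by
        field_simp
        ring
      rw [e2, Real.norm_eq_abs, abs_of_nonneg (by positivity), div_le_iff₀ hpos]
      nlinarith [sq_nonneg (s - ε)]
    rwa [hI.closed.closure_eq] at h1
  · rw [cfc_sa, ← cfc_mul (R := ℝ) _ _ b (by fun_prop) (by fun_prop)]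
    have : cfc (fun t : ℝ => Real.sqrt (max t 0) * Real.sqrt (max t 0)) b
        = cfc (fun t : ℝ => t) b := by
      refine cfc_congr fun t ht => ?_
      have ht0 : 0 ≤ t := spectrum_nonneg_of_nonneg h0 ht
      simp only [max_eq_left ht0]
      exact Real.mul_self_sqrt ht0
    rw [this, cfc_id' ℝ b]

theorem t_RW : S_RW := by
  classical
  intro A B _ _ ι I h hW
  obtain ⟨n, hn, hX⟩ := hW
  have hnorm : ∀ x : A, ‖ι x‖ = ‖x‖ := fun x => NonUnitalStarAlgHom.norm_map ι h.inj x
  refine ⟨n, hn, fun b hb hp ε hε => ?_⟩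
  by_cases hb0 : b = 0
  · refine ⟨fun _ _ => 0, fun _ _ => I.zero_mem, fun q q' => ?_⟩
    simp [hb0, hε.le]
  obtain ⟨d, hd, hdb⟩ := sqrt_mem h.idl hb hp
  obtain ⟨y, rfl⟩ := (h.mem _).1 hd
  obtain ⟨a, rfl⟩ := (h.mem _).1 hb
  have ha : a = star y * y := by
    apply h.inj
    rw [map_mul, map_star, hdb]
  have ha0 : a ≠ 0 := by
    rintro rfl
    exact hb0 (map_zero ι)
  obtain ⟨X, hlim⟩ := hX a ⟨y, ha⟩ ha0
  -- entries
  have hentry : ∀ (k : ℕ) (p p' : Fin 2 × Fin n),
      (Matrix.conjTranspose (X k) *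
          Matrix.diagonal (fun p : Fin 2 × Fin n => if p.1 = 0 then a else 0) * X k) p p'
        = ∑ l : Fin n, star (X k (0, l) p) * a * X k (0, l) p' := by
    intro k p p'
    rw [Matrix.mul_apply, Fintype.sum_prod_type, Fin.sum_univ_two]
    simp [Matrix.mul_diagonal, Matrix.conjTranspose_apply]
  have hev : ∀ p p' : Fin 2 × Fin n, ∀ᶠ k in atTop,
      ‖∑ l : Fin n, star (X k (0, l) p) * a * X k (0, l) p' - (if p = p' then a else 0)‖ ≤ ε := by
    intro p p'
    have h1 := (tendsto_pi_nhds.1 (tendsto_pi_nhds.1 hlim p) p')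
    have h2 := (Metric.tendsto_nhds.1 h1) ε hε
    filter_upwards [h2] with k hk
    rw [dist_eq_norm, hentry, Matrix.diagonal_apply] at hk
    exact hk.le
  have hall : ∀ᶠ k in atTop, ∀ p p' : Fin 2 × Fin n,
      ‖∑ l : Fin n, star (X k (0, l) p) * a * X k (0, l) p' - (if p = p' then a else 0)‖ ≤ ε :=
    eventually_all.2 fun p => eventually_all.2 fun p' => hev p p'
  obtain ⟨k, hk⟩ := hall.exists
  refine ⟨fun l q => ι (X k (0, l) (finProdFinEquiv.symm q)), fun l q => (h.mem _).2 ⟨_, rfl⟩,
    fun q q' => ?_⟩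
  have h3 := hk (finProdFinEquiv.symm q) (finProdFinEquiv.symm q')
  have e3 : (if q = q' then ι a else 0)
      = ι (if finProdFinEquiv.symm q = finProdFinEquiv.symm q' then a else 0) := by
    by_cases hq : q = q'
    · subst hq
      simp
    · have : finProdFinEquiv.symm q ≠ finProdFinEquiv.symm q' := fun hh =>
        hq (finProdFinEquiv.symm.injective hh)
      rw [if_neg hq, if_neg this, map_zero]
  rw [← hnorm, map_sub, map_sum, ← e3] at h3
  simpa only [map_mul, map_star] using h3

end Pool.Agent.N558.PX
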